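import Pool.Agent.Results.MP_1fed80_mp.FiniteSusceptibility
import Pool.Agent.Results.MP_8be4c0_mp.MassLowerBound
import Pool.Agent.Y13.QM.Fin

/-!
# Two-dimensional N-vector models, `N ≥ 3`: explicit bounds for susceptibility and mass
(MP_1fed80_mp, Q1 for `ν = 2`, `N ≥ 3`)

Nearest neighbour N-vector model with free boundary conditions in an arbitrary finite subset
`Λ` of `ℤ²` (definitions of the file `FiniteSusceptibility`). With one absolute constant `C`, for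
all `N ≥ 3` and all `β ≥ 0`: the susceptibility is at most `exp (C (1 + β²))` and the mass is at
least `exp (-C (1 + β²))`.
-/

set_option autoImplicit false

noncomputable section

namespace Pool.Agent.Results.MP_1fed80_mp.ExplicitBounds

open Pool.Agent.H983R2.ONJ (znorm corJ corJ_nonneg summable_exp_znorm)
open Pool.Agent.Y13.QM
open Pool.Agent.Results.MP_1fed80_mp.FiniteSusceptibility (corr IsFreeLimit cpl expC_cpl ct siz
  tnorm_ct corr_eq znorm_neg)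

/-- `⟨S_x · S_y⟩` in `Λ` with free boundary conditions (`0` if `x` or `y` is not in `Λ`). -/
def dot (N : ℕ) (Λ : Finset (ℤ × ℤ)) (β : ℝ) (x y : ℤ × ℤ) : ℝ :=
  ∑ i : Fin N, corr N Λ β i x y

/-- `G` is the two point function `x ↦ ⟨S_0 · S_x⟩` of an infinite volume limit with free
boundary conditions. -/
def IsFreeLimitDot (N : ℕ) (β : ℝ) (G : ℤ × ℤ → ℝ) : Prop :=
  ∃ Λ : ℕ → Finset (ℤ × ℤ), (∀ x, ∀ᶠ k in Filter.atTop, x ∈ Λ k) ∧
    ∀ x, Filter.Tendsto (fun k => dot N (Λ k) β 0 x) Filter.atTop (nhds (G x))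

theorem bound : ∃ C : ℝ, 1 ≤ C ∧ ∀ N : ℕ, 3 ≤ N → ∀ β : ℝ, 0 ≤ β →
    ∀ (Λ : Finset (ℤ × ℤ)) (x y : ℤ × ℤ), (∀ i, 0 ≤ corr N Λ β i x y) ∧
      dot N Λ β x y ≤
        Real.exp 2 * Real.exp (-Real.exp (-(C * (1 + β ^ 2))) * znorm (x - y)) := by
  obtain ⟨C0, hC0, hdec⟩ := corS_decay 1 one_pos
  obtain ⟨E, hE⟩ : ∃ E : ℝ, E = Real.exp 1 := ⟨_, rfl⟩
  have hE1 : 1 ≤ E := by rw [hE]; exact Real.one_le_exp zero_le_one
  refine ⟨C0 * E ^ 2, ?_, ?_⟩
  · nlinarith [sq_nonneg (E - 1)]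
  intro N hN β hβ Λ x y
  have hN0 : N ≠ 0 := by omega
  by_cases hxy : x ∈ Λ ∧ y ∈ Λ
  · have h1 : ∀ i, corr N Λ β i x y =
        corJ (cpl Λ β) i (ct (4 * siz Λ + 3) x) (ct (4 * siz Λ + 3) y) :=
      fun i => corr_eq hN0 Λ β i hxy.1 hxy.2
    have hex := expC_cpl Λ hβ
    refine ⟨fun i => ?_, ?_⟩
    · rw [h1]
      exact corJ_nonneg hN0 (fun e => (hex e).1) i _ _
    · have h2 : dot N Λ β x y =
          corS (N := N) (cpl Λ β) (ct (4 * siz Λ + 3) x) (ct (4 * siz Λ + 3) y) := by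
        rw [corS_eq]
        unfold dot
        exact Finset.sum_congr rfl fun i _ => h1 i
      rw [h2]
      refine (hdec (β * Real.exp 1) (by positivity) N hN _ (cpl Λ β) hex _ _).trans ?_
      rw [tnorm_ct hxy.1 hxy.2]
      refine mul_le_mul_of_nonneg_left (Real.exp_le_exp.2 ?_) (Real.exp_pos _).le
      have hz : 0 ≤ znorm (x - y) := Real.sqrt_nonneg _
      have h3 : Real.exp (-(C0 * E ^ 2 * (1 + β ^ 2))) ≤
          Real.exp (-(C0 * (1 + (β * Real.exp 1) ^ 2))) := by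
        refine Real.exp_le_exp.2 (neg_le_neg ?_)
        rw [← hE, mul_assoc C0]
        refine mul_le_mul_of_nonneg_left ?_ (by linarith)
        nlinarith [sq_nonneg (E - 1), sq_nonneg (β * E)]
      nlinarith
  · have h0 : ∀ i, corr N Λ β i x y = 0 := by
      intro i
      unfold FiniteSusceptibility.corr
      rw [dif_neg hxy]
    refine ⟨fun i => (h0 i).ge, ?_⟩
    unfold dot
    rw [Finset.sum_eq_zero fun i _ => h0 i]
    positivity

/-- the exponential sum -/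
theorem sum_le {C : ℝ} (hC : 1 ≤ C) (β : ℝ) :
    Real.exp 2 * ∑' x : ℤ × ℤ, Real.exp (-Real.exp (-(C * (1 + β ^ 2))) * znorm x) ≤
      Real.exp ((2 * C + 8) * (1 + β ^ 2)) := by
  have hβ2 : 0 ≤ β ^ 2 := sq_nonneg β
  obtain ⟨b, hb⟩ : ∃ b : ℝ, b = Real.exp (-(C * (1 + β ^ 2))) := ⟨_, rfl⟩
  have hb0 : 0 < b := by rw [hb]; exact Real.exp_pos _
  have hb1 : b ≤ 1 := by
    rw [hb]
    refine Real.exp_le_one_iff.2 ?_
    nlinarith
  rw [← hb]
  have h2 := MP_8be4c0_mp.MassLowerBound.tsum_exp_znorm_le hb0 hb1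
  have h3 : Real.exp 2 * ∑' x : ℤ × ℤ, Real.exp (-b * znorm x) ≤ Real.exp 2 * (64 / b ^ 2) :=
    mul_le_mul_of_nonneg_left h2 (Real.exp_pos _).le
  refine h3.trans ?_
  have h4 : (64 : ℝ) ≤ Real.exp 6 := by
    have h5 : (2 : ℝ) ≤ Real.exp 1 := by
      have := Real.add_one_le_exp (1 : ℝ)
      linarith
    have h6 : Real.exp 6 = Real.exp 1 ^ 6 := by
      rw [← Real.exp_nat_mul]
      norm_num
    rw [h6]
    calc (64 : ℝ) = 2 ^ 6 := by norm_num
      _ ≤ Real.exp 1 ^ 6 := pow_le_pow_left₀ (by norm_num) h5 6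
  have h7 : 64 / b ^ 2 = 64 * Real.exp (2 * (C * (1 + β ^ 2))) := by
    rw [hb, ← Real.exp_nat_mul, div_eq_mul_inv, ← Real.exp_neg]
    congr 2
    push_cast
    ring
  rw [h7]
  calc Real.exp 2 * (64 * Real.exp (2 * (C * (1 + β ^ 2))))
      ≤ Real.exp 2 * (Real.exp 6 * Real.exp (2 * (C * (1 + β ^ 2)))) := by
        refine mul_le_mul_of_nonneg_left ?_ (Real.exp_pos _).le
        exact mul_le_mul_of_nonneg_right h4 (Real.exp_pos _).le
    _ = Real.exp (8 + 2 * (C * (1 + β ^ 2))) := by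
        rw [← Real.exp_add, ← Real.exp_add]
        congr 1
        ring
    _ ≤ Real.exp ((2 * C + 8) * (1 + β ^ 2)) := by
        refine Real.exp_le_exp.2 ?_
        nlinarith

theorem mass_le {G : ℤ × ℤ → ℝ} {b : ℝ}
    (hG : ∀ x, G x ≤ Real.exp 2 * Real.exp (-b * znorm x)) {μ : ℝ} (hpos : ∀ n : ℕ, 0 < G (n, 0))
    (hμ : Filter.Tendsto (fun n : ℕ => -(1 / (n : ℝ)) * Real.log (G (n, 0))) Filter.atTop
      (nhds μ)) : b ≤ μ :=
  FiniteSusceptibility.mass_le (Real.exp_pos 2) hG hpos hμ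

/-- **Explicit bounds.** There is an absolute constant `C` such that for all `N ≥ 3` and `β ≥ 0`:

1. in every finite `Λ ⊂ ℤ²` with free boundary conditions the correlations of the components are
   nonnegative and `⟨S_x · S_y⟩ ≤ e² exp (-b |x - y|)` with `b = exp (-C (1 + β²))`;
2. `∑_y ⟨S_x · S_y⟩ ≤ exp (C (1 + β²))` in every finite `Λ`;
3. every infinite volume limit of `⟨S_0 · S_x⟩` obeys the same bounds and its mass, if it exists,
   is at least `b`;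
4. the same for the limits of the component correlations `⟨S_0^i S_x^i⟩` (in particular for the
   susceptibility `∑_x ⟨S_0^1 S_x^1⟩`);
5. such limits exist, for all components at once and along a subsequence of any exhausting
   sequence of finite sets. -/
theorem result : ∃ C : ℝ, 0 < C ∧ ∀ N : ℕ, 3 ≤ N → ∀ β : ℝ, 0 ≤ β →
    (∀ (Λ : Finset (ℤ × ℤ)) (x y : ℤ × ℤ), (∀ i, 0 ≤ corr N Λ β i x y) ∧
      dot N Λ β x y ≤
        Real.exp 2 * Real.exp (-Real.exp (-(C * (1 + β ^ 2))) * znorm (x - y))) ∧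
    (∀ (Λ : Finset (ℤ × ℤ)) (x : ℤ × ℤ), ∑ y ∈ Λ, dot N Λ β x y ≤ Real.exp (C * (1 + β ^ 2))) ∧
    (∀ G : ℤ × ℤ → ℝ, (IsFreeLimitDot N β G ∨ ∃ i, IsFreeLimit N β i G) →
      (∀ x, 0 ≤ G x ∧
        G x ≤ Real.exp 2 * Real.exp (-Real.exp (-(C * (1 + β ^ 2))) * znorm x)) ∧
      Summable G ∧ ∑' x, G x ≤ Real.exp (C * (1 + β ^ 2)) ∧
      ∀ μ : ℝ, (∀ n : ℕ, 0 < G (n, 0)) →
        Filter.Tendsto (fun n : ℕ => -(1 / (n : ℝ)) * Real.log (G (n, 0))) Filter.atTop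
          (nhds μ) → Real.exp (-(C * (1 + β ^ 2))) ≤ μ) ∧
    ∀ Λ : ℕ → Finset (ℤ × ℤ), (∀ x, ∀ᶠ k in Filter.atTop, x ∈ Λ k) →
      ∃ (φ : ℕ → ℕ) (g : Fin N → ℤ × ℤ → ℝ), StrictMono φ ∧
        (∀ i x, Filter.Tendsto (fun k => corr N (Λ (φ k)) β i 0 x) Filter.atTop
          (nhds (g i x))) ∧
        (∀ i, IsFreeLimit N β i (g i)) ∧ IsFreeLimitDot N β (fun x => ∑ i, g i x) := by
  obtain ⟨C0, hC0, hbd⟩ := bound
  refine ⟨2 * C0 + 8, by linarith, ?_⟩
  intro N hN β hβ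
  have hβ2 : 0 ≤ β ^ 2 := sq_nonneg β
  have hB := hbd N hN β hβ
  obtain ⟨b, hb⟩ : ∃ b : ℝ, b = Real.exp (-(C0 * (1 + β ^ 2))) := ⟨_, rfl⟩
  have hb0 : 0 < b := by rw [hb]; exact Real.exp_pos _
  have hsum := sum_le hC0 β
  rw [← hb] at hB hsum
  obtain ⟨b', hb'⟩ : ∃ b' : ℝ, b' = Real.exp (-((2 * C0 + 8) * (1 + β ^ 2))) := ⟨_, rfl⟩
  have hb'b : b' ≤ b := by
    rw [hb', hb]
    refine Real.exp_le_exp.2 (neg_le_neg ?_)
    nlinarith
  rw [← hb']
  have hz : ∀ x : ℤ × ℤ, 0 ≤ znorm x := fun x => Real.sqrt_nonneg _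
  have hw : ∀ x : ℤ × ℤ, Real.exp 2 * Real.exp (-b * znorm x) ≤
      Real.exp 2 * Real.exp (-b' * znorm x) := by
    intro x
    refine mul_le_mul_of_nonneg_left (Real.exp_le_exp.2 ?_) (Real.exp_pos _).le
    have := hz x
    nlinarith
  have hs := summable_exp_znorm b hb0
  have hs' : Summable fun k : ℤ × ℤ => Real.exp 2 * Real.exp (-b * znorm k) := hs.mul_left _
  have hsum' : ∑' k : ℤ × ℤ, Real.exp 2 * Real.exp (-b * znorm k) ≤
      Real.exp ((2 * C0 + 8) * (1 + β ^ 2)) := by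
    rw [tsum_mul_left]
    exact hsum
  have hcd : ∀ (Λ : Finset (ℤ × ℤ)) (i : Fin N) (x y : ℤ × ℤ),
      corr N Λ β i x y ≤ dot N Λ β x y := by
    intro Λ i x y
    unfold dot
    exact Finset.single_le_sum (f := fun i => corr N Λ β i x y) (fun j _ => (hB Λ x y).1 j)
      (Finset.mem_univ i)
  refine ⟨?_, ?_, ?_, ?_⟩
  · intro Λ x y
    exact ⟨(hB Λ x y).1, (hB Λ x y).2.trans (hw _)⟩
  · intro Λ x
    have h1 : ∑ y ∈ Λ, dot N Λ β x y ≤ ∑ y ∈ Λ, Real.exp 2 * Real.exp (-b * znorm (x - y)) :=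
      Finset.sum_le_sum fun y _ => (hB Λ x y).2
    have hsx : Summable fun y : ℤ × ℤ => Real.exp 2 * Real.exp (-b * znorm (x - y)) :=
      (Equiv.subLeft x).summable_iff
        (f := fun k : ℤ × ℤ => Real.exp 2 * Real.exp (-b * znorm k)) |>.2 hs'
    have h2 : ∑ y ∈ Λ, Real.exp 2 * Real.exp (-b * znorm (x - y)) ≤
        ∑' y : ℤ × ℤ, Real.exp 2 * Real.exp (-b * znorm (x - y)) :=
      hsx.sum_le_tsum Λ fun y _ => by positivity
    have h3 : ∑' y : ℤ × ℤ, Real.exp 2 * Real.exp (-b * znorm (x - y)) =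
        ∑' k : ℤ × ℤ, Real.exp 2 * Real.exp (-b * znorm k) :=
      (Equiv.subLeft x).tsum_eq fun k : ℤ × ℤ => Real.exp 2 * Real.exp (-b * znorm k)
    linarith
  · intro G hG
    have hGb : ∀ x, 0 ≤ G x ∧ G x ≤ Real.exp 2 * Real.exp (-b * znorm x) := by
      rcases hG with ⟨Λ, -, hlim⟩ | ⟨i, Λ, -, hlim⟩
      · intro x
        refine ⟨ge_of_tendsto' (hlim x) fun k => Finset.sum_nonneg fun i _ =>
          (hB (Λ k) 0 x).1 i, le_of_tendsto' (hlim x) fun k => ?_⟩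
        have := (hB (Λ k) 0 x).2
        rwa [znorm_neg] at this
      · intro x
        refine ⟨ge_of_tendsto' (hlim x) fun k => (hB (Λ k) 0 x).1 i,
          le_of_tendsto' (hlim x) fun k => ?_⟩
        have := (hcd (Λ k) i 0 x).trans (hB (Λ k) 0 x).2
        rwa [znorm_neg] at this
    have hsG : Summable G := Summable.of_nonneg_of_le (fun x => (hGb x).1)
      (fun x => (hGb x).2) hs'
    refine ⟨fun x => ⟨(hGb x).1, (hGb x).2.trans (hw x)⟩, hsG,
      (hsG.tsum_le_tsum (fun x => (hGb x).2) hs').trans hsum', ?_⟩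
    intro μ hpos hμ
    exact hb'b.trans (mass_le (fun x => (hGb x).2) hpos hμ)
  · intro Λ hΛ
    have hcomp : IsCompact (Set.pi Set.univ fun _ : Fin N × (ℤ × ℤ) =>
        Set.Icc (0 : ℝ) (Real.exp 2)) := isCompact_univ_pi fun _ => isCompact_Icc
    obtain ⟨G, -, φ, hφ, hlim⟩ := hcomp.tendsto_subseq
      (x := fun k => fun p : Fin N × (ℤ × ℤ) => corr N (Λ k) β p.1 0 p.2) (fun k p _ => by
        refine ⟨(hB (Λ k) 0 p.2).1 p.1, (hcd (Λ k) p.1 0 p.2).trans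
          ((hB (Λ k) 0 p.2).2.trans ?_)⟩
        have h1 : Real.exp (-b * znorm (0 - p.2)) ≤ 1 := by
          refine Real.exp_le_one_iff.2 ?_
          have := hz (0 - p.2)
          nlinarith
        have h2 := Real.exp_pos 2
        nlinarith)
    have hlim' := tendsto_pi_nhds.1 hlim
    refine ⟨φ, fun i x => G (i, x), hφ, fun i x => hlim' (i, x), fun i => ⟨fun k => Λ (φ k),
      fun x => hφ.tendsto_atTop.eventually (hΛ x), fun x => hlim' (i, x)⟩,
      ⟨fun k => Λ (φ k), fun x => hφ.tendsto_atTop.eventually (hΛ x), fun x => ?_⟩⟩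
    unfold dot
    exact tendsto_finsetSum _ fun i _ => hlim' (i, x)

end Pool.Agent.Results.MP_1fed80_mp.ExplicitBounds
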